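import Pool.Agent.H24.FD.P1

/-!
# MP_1f2761, k = 2, row MARG: the `N` marginal of a macro-digit
-/

set_option autoImplicit false

open Finset

namespace Pool.Agent.H24.FD

namespace Marg52

theorem vN_succ {l : ℕ} (s : Fin (l + 1) → Fin 3) :
    vN s = (if s 0 = 2 then 1 else 0) + 2 * vN (fun i => s i.succ) := by
  unfold vN
  rw [Fin.sum_univ_succ, Finset.mul_sum]
  congr 1
  · simp
  · refine Finset.sum_congr rfl fun i _ => ?_
    rw [Fin.val_succ, pow_succ]
    ring

theorem vN_eq_iff : ∀ (l : ℕ) (s s' : Fin l → Fin 3),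
    vN s = vN s' ↔ ∀ i, (s i = 2 ↔ s' i = 2) := by
  intro l
  induction l with
  | zero =>
    intro s s'
    refine ⟨fun _ i => i.elim0, fun _ => ?_⟩
    unfold vN
    simp
  | succ l ih =>
    intro s s'
    rw [vN_succ, vN_succ]
    constructor
    · intro h
      have h1 : (s 0 = 2 ↔ s' 0 = 2) ∧
          vN (fun i => s (Fin.succ i)) = vN (fun i => s' (Fin.succ i)) := by
        by_cases ha : s 0 = 2 <;> by_cases hb : s' 0 = 2 <;>
          simp only [ha, hb, if_true, if_false] at h ⊢ <;>
          refine ⟨?_, ?_⟩ <;> first | omega | simp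
      have h2 := (ih _ _).1 h1.2
      intro i
      refine Fin.cases h1.1 (fun j => h2 j) i
    · intro h
      have h1 : vN (fun i => s (Fin.succ i)) = vN (fun i => s' (Fin.succ i)) :=
        (ih _ _).2 fun i => h i.succ
      rw [h1]
      have h0 := h 0
      by_cases ha : s 0 = 2
      · rw [if_pos ha, if_pos (h0.1 ha)]
      · rw [if_neg ha, if_neg (fun hb => ha (h0.2 hb))]

theorem exists_base : ∀ (l η : ℕ), η < 2 ^ l →
    ∃ s : Fin l → Fin 3, vN s = η ∧ ∀ i, s i = 2 ∨ s i = 0 := by
  intro l
  induction l with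
  | zero =>
    intro η h
    refine ⟨fun i => i.elim0, ?_, fun i => i.elim0⟩
    have : η = 0 := by simpa using h
    rw [this]
    unfold vN
    simp
  | succ l ih =>
    intro η h
    obtain ⟨s, hs, hs'⟩ := ih (η / 2) (by rw [pow_succ] at h; omega)
    refine ⟨Fin.cons (if η % 2 = 1 then 2 else 0) s, ?_, ?_⟩
    · rw [vN_succ]
      have h1 : (fun i : Fin l => (Fin.cons (if η % 2 = 1 then 2 else 0) s : Fin (l + 1) → Fin 3)
          i.succ) = s := by
        funext i
        simp
      rw [h1, hs, Fin.cons_zero]
      by_cases h2 : η % 2 = 1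
      · rw [if_pos h2, if_pos rfl]
        omega
      · rw [if_neg h2, if_neg (by decide)]
        omega
    · intro i
      refine Fin.cases ?_ (fun j => ?_) i
      · rw [Fin.cons_zero]
        by_cases h2 : η % 2 = 1
        · rw [if_pos h2]
          exact Or.inl rfl
        · rw [if_neg h2]
          exact Or.inr rfl
      · rw [Fin.cons_succ]
        exact hs' j

theorem cn2_eq {l : ℕ} {s s' : Fin l → Fin 3} (h : vN s = vN s') : cn 2 s = cn 2 s' := by
  unfold cn
  congr 1
  refine Finset.filter_congr fun i _ => (vN_eq_iff l s s').1 h i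

theorem typN_iff {ε : ℝ} {l : ℕ} {s s' : Fin l → Fin 3} (h : vN s = vN s') :
    typN ε s ↔ typN ε s' := by
  unfold typN
  rw [cn2_eq h]

/-- a typical completion -/
theorem exists_typ {ε : ℝ} (hε : 0 < ε) {l : ℕ} (hl : 1 ≤ ε * l) {s₀ : Fin l → Fin 3}
    (h0 : ∀ i, s₀ i = 2 ∨ s₀ i = 0) (ht : typN ε s₀) :
    ∃ s : Fin l → Fin 3, vN s = vN s₀ ∧ typ ε s := by
  classical
  set Z : Finset (Fin l) := univ.filter fun i => s₀ i = 0 with hZ
  have hcard : cn 2 s₀ + Z.card = l := by
    unfold cn
    have h1 := Finset.card_filter_add_card_filter_not (s := (univ : Finset (Fin l)))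
      (fun i => s₀ i = 2)
    have h2 : (univ.filter fun i => ¬ s₀ i = 2) = Z := by
      refine Finset.filter_congr fun i _ => ?_
      constructor
      · intro h
        exact (h0 i).resolve_left h
      · intro h h'
        rw [h] at h'
        exact absurd h' (by decide)
    rw [h2] at h1
    rw [h1, Finset.card_univ, Fintype.card_fin]
  obtain ⟨M, hM, hMc⟩ := Finset.exists_subset_card_eq (s := Z) (n := min (l / 4) Z.card)
    (min_le_right _ _)
  refine ⟨fun i => if i ∈ M then 1 else s₀ i, ?_, ?_⟩
  · rw [vN_eq_iff]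
    intro i
    by_cases hi : i ∈ M
    · simp only [hi, if_true]
      have : s₀ i = 0 := (Finset.mem_filter.1 (hM hi)).2
      rw [this]
      decide
    · simp only [hi, if_false]
  · have hv : vN (fun i => if i ∈ M then 1 else s₀ i) = vN s₀ := by
      rw [vN_eq_iff]
      intro i
      by_cases hi : i ∈ M
      · simp only [hi, if_true]
        have : s₀ i = 0 := (Finset.mem_filter.1 (hM hi)).2
        rw [this]
        decide
      · simp only [hi, if_false]
    refine ⟨(typN_iff hv).2 ht, ?_⟩
    have hc1 : cn 1 (fun i => if i ∈ M then (1 : Fin 3) else s₀ i) = M.card := by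
      unfold cn
      congr 1
      ext i
      simp only [Finset.mem_filter, Finset.mem_univ, true_and]
      by_cases hi : i ∈ M
      · simp [hi]
      · simp only [hi, if_false, iff_false]
        rcases h0 i with h | h <;> rw [h] <;> decide
    rw [hc1, hMc]
    unfold typN at ht
    rw [abs_le] at ht
    have hl' : (cn 2 s₀ : ℝ) + Z.card = l := by exact_mod_cast hcard
    have hq1 : ((l / 4 : ℕ) : ℝ) ≤ l / 4 := by
      have := @Nat.cast_div_le ℝ _ _ _ l 4
      simpa using this
    have hq2 : (l : ℝ) / 4 - 1 < ((l / 4 : ℕ) : ℝ) := by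
      have h3 : l < 4 * (l / 4) + 4 := by omega
      have h4 : (l : ℝ) < 4 * ((l / 4 : ℕ) : ℝ) + 4 := by exact_mod_cast h3
      linarith
    have hl0 : (0 : ℝ) ≤ l := Nat.cast_nonneg l
    rcases le_total (l / 4) Z.card with h | h
    · rw [min_eq_left h, abs_le]
      constructor <;> linarith
    · rw [min_eq_right h, abs_le]
      have h5 : (Z.card : ℝ) ≤ ((l / 4 : ℕ) : ℝ) := by exact_mod_cast h
      have h6 : (0 : ℝ) ≤ Z.card := Nat.cast_nonneg _
      constructor
      · -- l/4 - Z ≤ ε l
        by_cases h7 : ε ≤ 1 / 4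
        · have h8 : ε * l ≤ 1 / 4 * l := mul_le_mul_of_nonneg_right h7 hl0
          linarith [ht.2]
        · push Not at h7
          have h8 : 1 / 4 * (l : ℝ) ≤ ε * l := mul_le_mul_of_nonneg_right h7.le hl0
          linarith
      · linarith

end Marg52

open Marg52

theorem marg : MARGStmt := by
  classical
  intro ε hε
  obtain ⟨l₀, hl₀⟩ := exists_nat_ge (1 / ε)
  refine ⟨l₀, fun l hl η hη => ?_⟩
  have hl1 : 1 ≤ ε * l := by
    have h1 : 1 / ε ≤ l := hl₀.trans (by exact_mod_cast hl)
    rw [div_le_iff₀ hε] at h1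
    linarith
  obtain ⟨s₀, hs₀, h0⟩ := exists_base l η hη
  by_cases ht : typN ε s₀
  · obtain ⟨s₁, hs₁, ht₁⟩ := exists_typ hε hl1 h0 ht
    set A : Finset (Fin l → Fin 3) := univ.filter fun s => vN s = η ∧ typ ε s with hA
    have hA1 : s₁ ∈ A := Finset.mem_filter.2 ⟨Finset.mem_univ _, hs₁.trans hs₀, ht₁⟩
    have hAc : (A.card : ℝ) ≠ 0 := by
      have : 0 < A.card := Finset.card_pos.2 ⟨s₁, hA1⟩
      positivity
    have hsum : ∀ s : Fin l → Fin 3, (if vN s = η then pF ε s else 0) =
        if vN s = η ∧ typ ε s then 1 / (2 ^ l * (A.card : ℝ)) else 0 := by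
      intro s
      by_cases hs : vN s = η
      · have h1 : typN ε s := (typN_iff (hs.trans hs₀.symm)).2 ht
        have h2 : DD ε s = A.card := by
          unfold DD
          rw [hA, hs]
        by_cases h3 : typ ε s
        · rw [if_pos hs, if_pos ⟨hs, h3⟩, pF, if_pos h1, if_pos h3, h2]
        · rw [if_pos hs, if_neg (fun h => h3 h.2), pF, if_pos h1, if_neg h3]
      · rw [if_neg hs, if_neg (fun h => hs h.1)]
    rw [Finset.sum_congr rfl fun s _ => hsum s, ← Finset.sum_filter, Finset.sum_const, ← hA,
      nsmul_eq_mul]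
    field_simp
  · have hsum : ∀ s : Fin l → Fin 3, (if vN s = η then pF ε s else 0) =
        if s = s₀ then 1 / 2 ^ l else 0 := by
      intro s
      by_cases hs : vN s = η
      · have h1 : ¬ typN ε s := fun h => ht ((typN_iff (hs.trans hs₀.symm)).1 h)
        have h2 := (vN_eq_iff l s s₀).1 (hs.trans hs₀.symm)
        by_cases h3 : cn 1 s = 0
        · have h4 : s = s₀ := by
            funext i
            have h5 : s i ≠ 1 := by
              unfold cn at h3
              rw [Finset.card_eq_zero, Finset.filter_eq_empty_iff] at h3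
              exact h3 (Finset.mem_univ i)
            rcases h0 i with h | h
            · rw [h]
              exact (h2 i).2 h
            · rw [h]
              have h6 : s i ≠ 2 := fun h7 => by
                have := (h2 i).1 h7
                rw [h] at this
                exact absurd this (by decide)
              generalize s i = x at h5 h6
              fin_cases x <;> simp_all
          rw [if_pos hs, if_pos h4, pF, if_neg h1, if_pos h3]
        · have h4 : s ≠ s₀ := by
            rintro rfl
            apply h3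
            unfold cn
            rw [Finset.card_eq_zero, Finset.filter_eq_empty_iff]
            intro i _ h
            rcases h0 i with h' | h' <;> rw [h'] at h <;> exact absurd h (by decide)
          rw [if_pos hs, if_neg h4, pF, if_neg h1, if_neg h3]
      · rw [if_neg hs, if_neg]
        rintro rfl
        exact hs hs₀
    rw [Finset.sum_congr rfl fun s _ => hsum s, Finset.sum_ite_eq' Finset.univ s₀]
    simp

end Pool.Agent.H24.FD
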